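import Pool.Agent.N353.PT.Stm

/-!
# Project PT: the reserved vertices for `D` (`S_BUN`)
-/

set_option autoImplicit false

open Finset
open scoped Classical

namespace Pool.Agent.N340.PT.BUN

open Pool.Agent.N353.PT

variable {V : Type} [Fintype V]

theorem Cl_mono {T : V → V → Prop} {EA EB R R' : Finset V} {k : ℕ} {z : V} (h : R ⊆ R')
    (hc : Cl T EA EB R k z) : Cl T EA EB R' k z := by
  refine ⟨fun hz => (hc.1 hz).trans (Finset.card_le_card ?_),
    fun hz => (hc.2 hz).trans (Finset.card_le_card ?_)⟩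
  · exact Finset.inter_subset_inter_left (Finset.sdiff_subset_sdiff h (Finset.Subset.refl _))
  · exact Finset.inter_subset_inter_left (Finset.sdiff_subset_sdiff h (Finset.Subset.refl _))

/-- the statement for a subset `D'` of `D` -/
def PBun (T : V → V → Prop) (D EA EB : Finset V) (k : ℕ) (D' : Finset V) (R : V → Finset V) :
    Prop :=
  (∀ y ∈ D', Disjoint (R y) D) ∧ (∀ y ∈ D', ∀ y' ∈ D', y ≠ y' → Disjoint (R y) (R y')) ∧
  (∀ y ∈ D', (R y).card ≤ 8 * k ^ 3) ∧ (∀ y ∈ D', k ≤ (inN T y ∩ R y).card) ∧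
  (∀ y ∈ D', k ≤ (outN T y ∩ R y).card) ∧ ∀ y ∈ D', ∀ z ∈ R y, Cl T EA EB (R y) k z

theorem step (h : S_CL) {T : V → V → Prop} {X0 : Finset V} {m k M : ℕ}
    {A B : Fin m → Finset V} {a b : Fin m → V} {D EA EB : Finset V} {δA δB : ℕ} (hk : 1 ≤ k)
    (hF : Frame T X0 m A B a b D EA EB δA δB)
    (hM : ∀ v, M ≤ (inN T v).card ∧ M ≤ (outN T v).card)
    (hq : 2 * (D.card * (1 + 8 * k ^ 3) + k) ≤ M) (D' : Finset V) (y0 : V) (hy0 : y0 ∉ D')
    (hD' : insert y0 D' ⊆ D) (R : V → Finset V) (hR : PBun T D EA EB k D' R) :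
    ∃ R' : V → Finset V, PBun T D EA EB k (insert y0 D') R' := by
  obtain ⟨r1, r2, r3, r4, r5, r6⟩ := hR
  set Q : Finset V := D ∪ D'.biUnion R with hQ
  have hQc : Q.card ≤ D.card * (1 + 8 * k ^ 3) := by
    have e1 : (D'.biUnion R).card ≤ D'.card * (8 * k ^ 3) :=
      Finset.card_biUnion_le_card_mul _ _ _ r3
    have e2 : D'.card ≤ D.card :=
      Finset.card_le_card ((Finset.subset_insert _ _).trans hD')
    have e3 : Q.card ≤ D.card + (D'.biUnion R).card := Finset.card_union_le _ _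
    have e4 : D'.card * (8 * k ^ 3) ≤ D.card * (8 * k ^ 3) := Nat.mul_le_mul_right _ e2
    nlinarith
  set q : ℕ := D.card * (1 + 8 * k ^ 3) with hqd
  have hsd : ∀ S : Finset V, M ≤ S.card → k ≤ (S \ Q).card := by
    intro S hS
    have := Finset.le_card_sdiff Q S
    omega
  obtain ⟨Yi, hYi, cYi⟩ := Finset.exists_subset_card_eq (hsd _ (hM y0).1)
  obtain ⟨Yo, hYo, cYo⟩ := Finset.exists_subset_card_eq (hsd _ (hM y0).2)
  set Y : Finset V := Yi ∪ Yo with hY
  have hYc : Y.card ≤ 2 * k := by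
    have e0 : Y.card ≤ Yi.card + Yo.card := Finset.card_union_le Yi Yo
    rw [cYi, cYo] at e0
    omega
  have hYQ : ∀ z ∈ Y, z ∉ Q := by
    intro z hz
    rcases Finset.mem_union.1 hz with h1 | h1
    · exact (Finset.mem_sdiff.1 (hYi h1)).2
    · exact (Finset.mem_sdiff.1 (hYo h1)).2
  have hQD : ∀ z, z ∉ Q → z ∉ D := fun z hz hzD => hz (Finset.mem_union_left _ hzD)
  obtain ⟨R1, d1, c1, l1⟩ := h V T EA EB Q Y k hk (by
    intro z hz
    have hzD : z ∉ D := hQD z (hYQ z hz)
    have e1 := hF.degA z hzD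
    have e2 := hF.eA
    have e3 := (hM z).1
    have e4 := Finset.le_card_sdiff (EA ∪ Q) (inN T z)
    have e5 := Finset.card_union_le EA Q
    omega) (by
    intro z hz
    have hzQ : z ∉ Q := by
      rcases hz with hz | hz
      · exact hYQ z hz
      · exact hz
    have hzD : z ∉ D := hQD z hzQ
    have e1 := hF.degB z hzD
    have e2 := hF.eA
    have e2' := hF.eB
    have e2'' := hF.le
    have e3 := (hM z).2
    have e4 := Finset.le_card_sdiff (EA ∪ EB ∪ Q) (outN T z)
    have e5 := Finset.card_union_le (EA ∪ EB) Q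
    have e6 := Finset.card_union_le EA EB
    omega)
  set Rn : Finset V := Y ∪ R1 with hRn
  have hRnQ : Disjoint Rn Q := by
    rw [hRn, Finset.disjoint_union_left]
    exact ⟨Finset.disjoint_left.2 hYQ, d1⟩
  have hRnc : Rn.card ≤ 8 * k ^ 3 := by
    have e1 : Rn.card ≤ Y.card + R1.card := Finset.card_union_le _ _
    have e2 : 3 * k ^ 2 * Y.card ≤ 3 * k ^ 2 * (2 * k) := Nat.mul_le_mul_left _ hYc
    have e3 : 3 * k ^ 2 * (2 * k) = 6 * k ^ 3 := by ring
    have e4 : k ≤ k ^ 3 := Nat.le_self_pow (by norm_num) k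
    omega
  have hne : ∀ y ∈ D', y ≠ y0 := fun y hy he => hy0 (he ▸ hy)
  have hv : ∀ y ∈ D', Function.update R y0 Rn y = R y := fun y hy =>
    Function.update_of_ne (hne y hy) _ _
  have hv0 : Function.update R y0 Rn y0 = Rn := Function.update_self _ _ _
  have hDn : Disjoint Rn D := Finset.disjoint_of_subset_right Finset.subset_union_left hRnQ
  have hRd : ∀ y ∈ D', Disjoint Rn (R y) := fun y hy =>
    Finset.disjoint_of_subset_right
      ((Finset.subset_biUnion_of_mem R hy).trans Finset.subset_union_right) hRnQ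
  refine ⟨Function.update R y0 Rn, ?_, ?_, ?_, ?_, ?_, ?_⟩
  · intro y hy
    rcases Finset.mem_insert.1 hy with rfl | hy
    · rw [hv0]; exact hDn
    · rw [hv y hy]; exact r1 y hy
  · intro y hy y' hy' hyy
    rcases Finset.mem_insert.1 hy with hy | hy
    · rcases Finset.mem_insert.1 hy' with hy' | hy'
      · exact absurd (hy.trans hy'.symm) hyy
      · rw [hy, hv0, hv y' hy']
        exact hRd y' hy'
    · rcases Finset.mem_insert.1 hy' with hy' | hy'
      · rw [hy', hv0, hv y hy]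
        exact (hRd y hy).symm
      · rw [hv y hy, hv y' hy']
        exact r2 y hy y' hy' hyy
  · intro y hy
    rcases Finset.mem_insert.1 hy with rfl | hy
    · rw [hv0]; exact hRnc
    · rw [hv y hy]; exact r3 y hy
  · intro y hy
    rcases Finset.mem_insert.1 hy with rfl | hy
    · rw [hv0, ← cYi]
      refine Finset.card_le_card fun z hz => Finset.mem_inter.2 ⟨?_, ?_⟩
      · exact (Finset.mem_sdiff.1 (hYi hz)).1
      · exact Finset.mem_union_left _ (Finset.mem_union_left _ hz)
    · rw [hv y hy]; exact r4 y hy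
  · intro y hy
    rcases Finset.mem_insert.1 hy with rfl | hy
    · rw [hv0, ← cYo]
      refine Finset.card_le_card fun z hz => Finset.mem_inter.2 ⟨?_, ?_⟩
      · exact (Finset.mem_sdiff.1 (hYo hz)).1
      · exact Finset.mem_union_left _ (Finset.mem_union_right _ hz)
    · rw [hv y hy]; exact r5 y hy
  · intro y hy
    rcases Finset.mem_insert.1 hy with rfl | hy
    · rw [hv0]
      intro z hz
      exact Cl_mono Finset.subset_union_right (l1 z hz)
    · rw [hv y hy]; exact r6 y hy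

theorem t_BUN (h : S_CL) : S_BUN := by
  intro V _ T X0 m k M A B a b D EA EB δA δB hk hF hM hq
  have key : ∀ D' : Finset V, D' ⊆ D → ∃ R : V → Finset V, PBun T D EA EB k D' R := by
    intro D'
    induction D' using Finset.induction_on with
    | empty =>
      intro _
      refine ⟨fun _ => ∅, ?_, ?_, ?_, ?_, ?_, ?_⟩ <;> simp
    | insert y0 D' hy0 ih =>
      intro hD'
      obtain ⟨R, hR⟩ := ih ((Finset.subset_insert _ _).trans hD')
      exact step h hk hF hM hq D' y0 hy0 hD' R hR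
  obtain ⟨R, r1, r2, r3, r4, r5, r6⟩ := key D (Finset.Subset.refl _)
  exact ⟨R, r1, r2, r3, r4, r5, r6⟩

end Pool.Agent.N340.PT.BUN
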